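import Mathlib

/-!
# The rank of the matrix of the numbers of colourings fixed by permutations
-/

namespace Pool.Agent.K3h85.PG

open Matrix

/-- For a real symmetric matrix `(tr S) ^ 2 ≤ rank S * tr (S ^ 2)`. -/
lemma trace_sq_le {ι : Type*} [Fintype ι] [DecidableEq ι] {S : Matrix ι ι ℝ}
    (hS : S.IsHermitian) : S.trace ^ 2 ≤ (S.rank : ℝ) * (S * S).trace := by
  have h1 : S.trace = ∑ i, hS.eigenvalues i := by
    have := hS.trace_eq_sum_eigenvalues
    simpa using this
  have h2 : (S * S).trace = ∑ i, hS.eigenvalues i ^ 2 := by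
    have h3 := hS.spectral_theorem
    set D : Matrix ι ι ℝ := diagonal (RCLike.ofReal ∘ hS.eigenvalues) with hD
    have h4 : S * S = Unitary.conjStarAlgAut ℝ _ hS.eigenvectorUnitary (D * D) := by
      rw [map_mul, ← h3]
    rw [h4, Unitary.conjStarAlgAut_apply, Matrix.trace_mul_comm, ← Matrix.mul_assoc]
    have h5 : (star (hS.eigenvectorUnitary : Matrix ι ι ℝ)) *
        (hS.eigenvectorUnitary : Matrix ι ι ℝ) = 1 := by
      exact Unitary.coe_star_mul_self hS.eigenvectorUnitary
    rw [h5, Matrix.one_mul, hD, diagonal_mul_diagonal, trace_diagonal]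
    refine Finset.sum_congr rfl fun i _ => ?_
    simp [pow_two]
  have h3 : (S.rank : ℝ) = ((Finset.univ.filter fun i => hS.eigenvalues i ≠ 0).card : ℝ) := by
    rw [hS.rank_eq_card_non_zero_eigs, Fintype.card_subtype]
  rw [h1, h2, h3]
  have h4 : ∑ i, hS.eigenvalues i =
      ∑ i ∈ Finset.univ.filter (fun i => hS.eigenvalues i ≠ 0), hS.eigenvalues i :=
    (Finset.sum_filter_ne_zero (s := Finset.univ) (f := hS.eigenvalues)).symm
  have h5 : ∑ i, hS.eigenvalues i ^ 2 ≥
      ∑ i ∈ Finset.univ.filter (fun i => hS.eigenvalues i ≠ 0), hS.eigenvalues i ^ 2 :=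
    Finset.sum_le_sum_of_subset_of_nonneg (Finset.filter_subset _ _) fun i _ _ => sq_nonneg _
  rw [h4]
  refine le_trans sq_sum_le_card_mul_sum_sq ?_
  exact mul_le_mul_of_nonneg_left h5 (Nat.cast_nonneg _)

/-- A matrix with rational entries does not have a larger rank over the real numbers. -/
lemma rank_map_le {ι : Type*} [Fintype ι] [DecidableEq ι] (M : Matrix ι ι ℚ) :
    (M.map (Rat.cast : ℚ → ℝ)).rank ≤ M.rank := by
  set W := LinearMap.range M.mulVecLin with hW
  let B := Module.finBasis ℚ W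
  have hr : Module.finrank ℚ W = M.rank := rfl
  let P : Matrix ι (Fin (Module.finrank ℚ W)) ℚ := fun i k => (B k : ι → ℚ) i
  let Q : Matrix (Fin (Module.finrank ℚ W)) ι ℚ := fun k j =>
    B.repr ⟨M.mulVecLin (Pi.single j 1), LinearMap.mem_range_self _ _⟩ k
  have h1 : P * Q = M := by
    ext i j
    rw [Matrix.mul_apply]
    have h2 := B.sum_repr ⟨M.mulVecLin (Pi.single j 1), LinearMap.mem_range_self _ _⟩
    have h3 := congrArg (fun v : W => (v : ι → ℚ) i) h2
    simp only [Submodule.coe_sum, Submodule.coe_smul, Finset.sum_apply, Pi.smul_apply,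
      smul_eq_mul] at h3
    rw [show (M.mulVecLin (Pi.single j 1)) i = M i j by simp] at h3
    rw [← h3]
    refine Finset.sum_congr rfl fun k _ => ?_
    exact mul_comm _ _
  have h2 : M.map (Rat.cast : ℚ → ℝ) = P.map (Rat.cast : ℚ → ℝ) * Q.map (Rat.cast : ℚ → ℝ) := by
    rw [← h1]
    ext i j
    simp [Matrix.mul_apply]
  rw [h2]
  refine (Matrix.rank_mul_le_left _ _).trans ?_
  refine (Matrix.rank_le_card_width _).trans ?_
  rw [Fintype.card_fin]
  exact le_of_eq hr

/-- A matrix of rank at least `A` has an invertible part of size `A` after multiplications from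
both sides. -/
lemma exists_mul_mul {ι : Type*} [Fintype ι] [DecidableEq ι] (M : Matrix ι ι ℚ) {A : ℕ}
    (hA : A ≤ M.rank) : ∃ (a : Matrix (Fin A) ι ℚ) (b : Matrix ι (Fin A) ℚ), a * M * b = 1 := by
  have hA' : A ≤ Module.finrank ℚ (LinearMap.range M.mulVecLin) := hA
  obtain ⟨f, hf⟩ := exists_linearIndependent_of_le_finrank hA'
  choose g hg using fun i : Fin A => LinearMap.mem_range.1 (f i).2
  have hf' : LinearIndependent ℚ (fun i : Fin A => ((f i : LinearMap.range M.mulVecLin) : ι → ℚ)) :=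
    hf.map' (Submodule.subtype _) (Submodule.ker_subtype _)
  let b : Matrix ι (Fin A) ℚ := fun i k => g k i
  have h1 : (M * b).col = fun k => ((f k : LinearMap.range M.mulVecLin) : ι → ℚ) := by
    funext k i
    rw [← hg k]
    rfl
  have h2 : Function.Injective (M * b).mulVecLin := by
    have h3 : Function.Injective (M * b).mulVec := Matrix.mulVec_injective_iff.2 (by rw [h1]; exact hf')
    exact h3
  obtain ⟨L, hL⟩ := (M * b).mulVecLin.exists_leftInverse_of_injective (LinearMap.ker_eq_bot.2 h2)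
  refine ⟨LinearMap.toMatrix' L, b, ?_⟩
  rw [Matrix.mul_assoc]
  have h4 : LinearMap.toMatrix' (L ∘ₗ (M * b).mulVecLin) =
      LinearMap.toMatrix' L * LinearMap.toMatrix' (M * b).mulVecLin := LinearMap.toMatrix'_comp _ _
  rw [hL, LinearMap.toMatrix'_id] at h4
  have h5 : LinearMap.toMatrix' (M * b).mulVecLin = M * b := LinearMap.toMatrix'_toLin' _
  rw [h5] at h4
  exact h4.symm

/-- The number of colourings `c` with `c ∘ σ = c`. -/
def fixN (n : ℕ) (α : Type*) [Fintype α] [DecidableEq α] (σ : Equiv.Perm (Fin n)) : ℕ :=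
  Fintype.card {c : Fin n → α // c ∘ σ = c}

lemma exists_perm {n : ℕ} {α : Type*} [DecidableEq α] (c c' : Fin n → α)
    (h : ∀ a, Multiset.count a (Finset.univ.val.map c) =
      Multiset.count a (Finset.univ.val.map c')) : ∃ σ : Equiv.Perm (Fin n), c ∘ σ = c' := by
  have h1 : ∀ a, Nonempty ({i // c' i = a} ≃ {i // c i = a}) := by
    intro a
    refine ⟨Fintype.equivOfCardEq ?_⟩
    have h2 := h a
    rw [Multiset.count_map, Multiset.count_map] at h2
    rw [Fintype.card_subtype, Fintype.card_subtype]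
    have h3 : ∀ d : Fin n → α, (Multiset.filter (fun b => a = d b) Finset.univ.val).card =
        (Finset.univ.filter fun i => d i = a).card := by
      intro d
      rw [Finset.card_def, Finset.filter_val]
      congr 1
      exact Multiset.filter_congr fun x _ => eq_comm
    rw [← h3, ← h3]
    exact h2.symm
  let e : ∀ a, {i // c' i = a} ≃ {i // c i = a} := fun a => (h1 a).some
  refine ⟨(Equiv.sigmaFiberEquiv c').symm.trans ((Equiv.sigmaCongrRight fun a =>
    (e a)).trans (Equiv.sigmaFiberEquiv c)), ?_⟩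
  funext i
  exact (e (c' i) ⟨i, rfl⟩).2

/-- Burnside's lemma for colourings. -/
lemma sum_fixN (n : ℕ) (α : Type*) [Fintype α] [DecidableEq α] :
    ∑ σ : Equiv.Perm (Fin n), fixN n α σ ≤ n.factorial * Nat.multichoose (Fintype.card α) n := by
  classical
  let _ : MulAction (Equiv.Perm (Fin n)) (Fin n → α) := arrowAction
  have hb := MulAction.sum_card_fixedBy_eq_card_orbits_mul_card_group
    (Equiv.Perm (Fin n)) (Fin n → α)
  have hs : ∀ (σ : Equiv.Perm (Fin n)) (c : Fin n → α), σ • c = c ∘ ⇑σ⁻¹ := fun σ c => rfl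
  have h1 : ∀ σ : Equiv.Perm (Fin n),
      Fintype.card (MulAction.fixedBy (Fin n → α) σ) = fixN n α σ⁻¹ := by
    intro σ
    refine Fintype.card_congr (Equiv.subtypeEquivRight fun c => ?_)
    rw [MulAction.mem_fixedBy, hs]
  have h2 : ∑ σ : Equiv.Perm (Fin n), fixN n α σ =
      ∑ σ : Equiv.Perm (Fin n), Fintype.card (MulAction.fixedBy (Fin n → α) σ) := by
    rw [← Equiv.sum_comp (Equiv.inv (Equiv.Perm (Fin n)))]
    exact Finset.sum_congr rfl fun σ _ => (h1 σ).symm
  rw [h2, hb, Fintype.card_perm, Fintype.card_fin, mul_comm]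
  refine Nat.mul_le_mul_left _ ?_
  rw [← Sym.card_sym_eq_multichoose]
  let F : MulAction.orbitRel.Quotient (Equiv.Perm (Fin n)) (Fin n → α) → Sym α n :=
    Quotient.lift (fun c => (⟨Finset.univ.val.map c, by simp⟩ : Sym α n)) (by
      intro c d hcd
      obtain ⟨σ, rfl⟩ := MulAction.mem_orbit_iff.1 (MulAction.orbitRel_apply.1 hcd)
      apply Subtype.ext
      change Multiset.map (d ∘ ⇑σ⁻¹) Finset.univ.val = Multiset.map d Finset.univ.val
      rw [← Multiset.map_map]
      congr 1
      have h3 := congrArg Finset.val (Finset.map_univ_equiv σ⁻¹)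
      rwa [Finset.map_val] at h3)
  refine Fintype.card_le_of_injective F ?_
  intro x y
  refine Quotient.inductionOn₂ x y fun c d h => ?_
  have h3 : Multiset.map c Finset.univ.val = Multiset.map d Finset.univ.val :=
    congrArg Subtype.val h
  obtain ⟨σ, hσ⟩ := exists_perm d c (fun a => by rw [h3])
  apply Quotient.sound
  refine MulAction.orbitRel_apply.2 (MulAction.mem_orbit_iff.2 ⟨σ⁻¹, ?_⟩)
  rw [hs, inv_inv]
  exact hσ

lemma fixN_one (n : ℕ) (α : Type*) [Fintype α] [DecidableEq α] :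
    fixN n α 1 = Fintype.card α ^ n := by
  unfold fixN
  rw [Fintype.card_congr (Equiv.subtypeUnivEquiv (fun c : Fin n → α => by simp))]
  simp

lemma fixN_inv (n : ℕ) (α : Type*) [Fintype α] [DecidableEq α] (σ : Equiv.Perm (Fin n)) :
    fixN n α σ⁻¹ = fixN n α σ := by
  refine Fintype.card_congr (Equiv.subtypeEquivRight fun c => ?_)
  constructor
  · intro h
    conv_lhs => rw [← h]
    funext i
    simp
  · intro h
    conv_lhs => rw [← h]
    funext i
    simp

lemma fixN_sq (n : ℕ) (α : Type*) [Fintype α] [DecidableEq α] (σ : Equiv.Perm (Fin n)) :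
    fixN n α σ ^ 2 = fixN n (α × α) σ := by
  unfold fixN
  rw [pow_two, ← Fintype.card_prod]
  refine Fintype.card_congr
    { toFun := fun p => ⟨fun i => (p.1.1 i, p.2.1 i), ?_⟩
      invFun := fun c => (⟨fun i => (c.1 i).1, ?_⟩, ⟨fun i => (c.1 i).2, ?_⟩)
      left_inv := ?_
      right_inv := ?_ }
  · funext i
    exact Prod.ext (congrFun p.1.2 i) (congrFun p.2.2 i)
  · funext i
    exact congrArg Prod.fst (congrFun c.2 i)
  · funext i
    exact congrArg Prod.snd (congrFun c.2 i)
  · rintro ⟨p, q⟩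
    rfl
  · rintro ⟨c, hc⟩
    rfl

/-- The matrix of the numbers of fixed colourings. -/
def fixM (n : ℕ) (α : Type*) [Fintype α] [DecidableEq α] :
    Matrix (Equiv.Perm (Fin n)) (Equiv.Perm (Fin n)) ℚ :=
  fun σ τ => (fixN n α (τ⁻¹ * σ) : ℚ)

/-- The rank of the matrix of the numbers of fixed colourings. -/
theorem rank_fixM (n : ℕ) (α : Type*) [Fintype α] [DecidableEq α] :
    Fintype.card α ^ (2 * n) ≤
      (fixM n α).rank * Nat.multichoose (Fintype.card α ^ 2) n := by
  set S : Matrix (Equiv.Perm (Fin n)) (Equiv.Perm (Fin n)) ℝ :=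
    (fixM n α).map (Rat.cast : ℚ → ℝ) with hS
  have hSe : ∀ σ τ, S σ τ = (fixN n α (τ⁻¹ * σ) : ℝ) := fun σ τ => by
    simp [hS, fixM]
  have hSym : S.IsHermitian := by
    ext σ τ
    rw [Matrix.conjTranspose_apply, hSe, hSe, ← fixN_inv n α (τ⁻¹ * σ)]
    simp
  have h1 := trace_sq_le hSym
  have hcard : (Fintype.card (Equiv.Perm (Fin n)) : ℝ) = (n.factorial : ℝ) := by
    rw [Fintype.card_perm, Fintype.card_fin]
  have h2 : S.trace = n.factorial * (Fintype.card α : ℝ) ^ n := by
    unfold Matrix.trace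
    have : ∀ σ, S.diag σ = (Fintype.card α : ℝ) ^ n := by
      intro σ
      rw [Matrix.diag_apply, hSe, inv_mul_cancel, fixN_one]
      push_cast
      rfl
    rw [Finset.sum_congr rfl fun σ _ => this σ, Finset.sum_const, Finset.card_univ, nsmul_eq_mul,
      hcard]
  have h3 : (S * S).trace = n.factorial * ∑ σ : Equiv.Perm (Fin n), (fixN n (α × α) σ : ℝ) := by
    unfold Matrix.trace
    have : ∀ σ, (S * S).diag σ = ∑ ρ : Equiv.Perm (Fin n), (fixN n (α × α) ρ : ℝ) := by
      intro σ
      rw [Matrix.diag_apply, Matrix.mul_apply]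
      have h4 : ∀ τ, S σ τ * S τ σ = (fixN n (α × α) (τ⁻¹ * σ) : ℝ) := by
        intro τ
        rw [hSe, hSe, ← fixN_sq, ← fixN_inv n α (σ⁻¹ * τ), _root_.mul_inv_rev, inv_inv]
        push_cast
        ring
      rw [Finset.sum_congr rfl fun τ _ => h4 τ]
      let e : Equiv.Perm (Fin n) ≃ Equiv.Perm (Fin n) :=
        (Equiv.inv _).trans (Equiv.mulRight σ)
      exact Equiv.sum_comp e (fun ρ => (fixN n (α × α) ρ : ℝ))
    rw [Finset.sum_congr rfl fun σ _ => this σ, Finset.sum_const, Finset.card_univ, nsmul_eq_mul,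
      hcard]
  have h4 : (∑ σ : Equiv.Perm (Fin n), (fixN n (α × α) σ : ℝ)) ≤
      n.factorial * (Nat.multichoose (Fintype.card α ^ 2) n : ℝ) := by
    have := sum_fixN n (α × α)
    rw [Fintype.card_prod, ← pow_two] at this
    exact_mod_cast this
  have h5 : (S.rank : ℝ) ≤ ((fixM n α).rank : ℝ) := by exact_mod_cast rank_map_le (fixM n α)
  have hf : (0 : ℝ) < n.factorial := by exact_mod_cast n.factorial_pos
  rw [h2, h3] at h1
  have h6 : ((n.factorial : ℝ) * (Fintype.card α : ℝ) ^ n) ^ 2 ≤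
      ((fixM n α).rank : ℝ) * (n.factorial * (n.factorial *
        (Nat.multichoose (Fintype.card α ^ 2) n : ℝ))) := by
    refine h1.trans ?_
    refine mul_le_mul h5 ?_ ?_ (Nat.cast_nonneg _)
    · exact mul_le_mul_of_nonneg_left h4 hf.le
    · exact mul_nonneg hf.le (Finset.sum_nonneg fun _ _ => Nat.cast_nonneg _)
  have h7 : ((Fintype.card α : ℝ) ^ (2 * n)) ≤
      ((fixM n α).rank : ℝ) * (Nat.multichoose (Fintype.card α ^ 2) n : ℝ) := by
    have h8 : (n.factorial : ℝ) ^ 2 * ((Fintype.card α : ℝ) ^ (2 * n)) ≤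
        (n.factorial : ℝ) ^ 2 * (((fixM n α).rank : ℝ) *
          (Nat.multichoose (Fintype.card α ^ 2) n : ℝ)) := by
      calc (n.factorial : ℝ) ^ 2 * ((Fintype.card α : ℝ) ^ (2 * n)) =
          ((n.factorial : ℝ) * (Fintype.card α : ℝ) ^ n) ^ 2 := by ring
        _ ≤ _ := h6
        _ = _ := by ring
    exact le_of_mul_le_mul_left h8 (by positivity)
  exact_mod_cast h7

end Pool.Agent.K3h85.PG
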