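import Pool.Agent.K3h85.PG.Geo

/-!
# Growth of the groups of homologically trivial cycles on the powers of a variety: definitions
-/

open CategoryTheory AlgebraicGeometry

universe u v w

namespace Pool.Agent.K3h85.PG

open Pool.Agent.H914 Pool.Agent.H914.VarClass Pool.Agent.H914.VarClass.Obj Pool.Agent.W492.BB
  Pool.Agent.TH133 Pool.Agent.Y110
open Pool.Agent.V1151.DG (pw)

variable {k : Type u} [Field k] {𝒱 : VarClass k} {C : TheoryData.{u, v, 0} 𝒱 ℚ}
  {K : Type w} [Field K] (H : WeilTheoryData.{u, v, w} C K)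

/-- `H^i(X) = 0` for all odd `i < 2 r`. -/
def NoOddBelow (r : ℕ) (X : 𝒱.Obj) : Prop :=
  ∀ (i : ℤ) (a : H.A X), Odd i → i < 2 * r → H.Deg i a → a = 0

/-- Every homologically trivial cycle of codimension `r` (with rational coefficients) on `X` is
rationally equivalent to zero. -/
def InjectiveIn (r : ℕ) (X : 𝒱.Obj) : Prop := ∀ z : C.A X, C.Deg r z → H.cl z = 0 → z = 0

/-- The dimension of the space of homologically trivial cycles of codimension `r` (with rational
coefficients) on `X` is at least `d`. -/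
def HomInGE (r : ℕ) (X : 𝒱.Obj) (d : ℕ) : Prop :=
  ∃ t : Fin d → C.A X, (∀ i, C.Deg r (t i) ∧ H.cl (t i) = 0) ∧ LinearIndependent ℚ t

/-- For constants `D` and `β` with `0 ≤ β < dim H(X)` and infinitely many `N = n + 1` the space of
homologically trivial cycles of the middle codimension `⌊N dim X / 2⌋` on `X ^ N` has dimension at
most `D β ^ N`. -/
def SlowGrowth (X : 𝒱.Obj) : Prop :=
  ∃ β D : ℝ, 0 ≤ β ∧ β < Module.finrank K (H.A X) ∧
    ∃ᶠ n : ℕ in Filter.atTop, ∀ d : ℕ, HomInGE H ((n + 1) * X.dim / 2) (pw X n) d →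
      (d : ℝ) ≤ D * β ^ (n + 1)

/-- For every `ε > 0` and infinitely many `n` the space of homologically trivial cycles of
codimension `r` on `X ^ (n + 1)` has dimension at most `ε (n + 1) ^ (m + 1)`. -/
def SlowGrowthIn (r m : ℕ) (X : 𝒱.Obj) : Prop :=
  ∀ ε : ℝ, 0 < ε → ∃ᶠ n : ℕ in Filter.atTop, ∀ d : ℕ, HomInGE H r (pw X n) d →
    (d : ℝ) ≤ ε * (n + 1) ^ (m + 1)

end Pool.Agent.K3h85.PG
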