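import Pool.Agent.V1151.DV.Main
import Pool.Agent.Y110.Gc
import Pool.Agent.TH829.Kim.Pts
import Pool.Agent.Y148.BB.Curve
import Pool.Agent.K3h85.PG.Lin

/-!
# Varieties without odd cohomology: integrals, dual bases, permutations of the factors of powers
-/

open CategoryTheory AlgebraicGeometry

universe u v w

namespace Pool.Agent.K3h85.PG

open Pool.Agent.H914 Pool.Agent.H914.VarClass Pool.Agent.H914.VarClass.Obj Pool.Agent.W492.BB
  Pool.Agent.W550.Corr Pool.Agent.TH133 Pool.Agent.TH829.Prime Pool.Agent.TH829.Kim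
  Pool.Agent.Y148.BB Pool.Agent.Y110
open Pool.Agent.V1151.DG (pw pw_iso NumRankGE numRank_one estimate exists_pt)

set_option linter.unusedSectionVars false

variable {k : Type u} [Field k] {𝒱 : VarClass k} {C : TheoryData.{u, v, 0} 𝒱 ℚ}
  [hC : IsChowProj C] {K : Type w} [Field K]

/-- The odd cohomology of `X` vanishes. -/
def NoOdd (H : WeilTheoryData.{u, v, w} C K) (X : 𝒱.Obj) : Prop :=
  ∀ (i : ℤ) (a : H.A X), Odd i → H.Deg i a → a = 0

/-- The cohomology is graded commutative and `X` has no odd cohomology. -/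
class EvenVar (H : WeilTheoryData.{u, v, w} C K) (X : 𝒱.Obj) : Prop where
  gc : GradedCommutative H
  noOdd : NoOdd H X

variable {H : WeilTheoryData.{u, v, w} C K} [hH : IsWeilProj H] {X Y Z : 𝒱.Obj}

include hC hH

lemma even_comm [hX : EvenVar H X] (a b : H.A X) : a * b = b * a := by
  have h1 : ∀ i, ∀ a ∈ H.gr X i, ∀ b : H.A X, a * b = b * a := by
    intro i a ha b
    rcases Int.even_or_odd i with hi | hi
    · have h2 : LinearMap.mulLeft K a = LinearMap.mulRight K a := by
        apply ext_gr H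
        intro j b hb
        have h3 := hX.gc X i j a b ha hb
        rw [Int.negOnePow_even _ (hi.mul_right j), one_smul] at h3
        exact h3
      exact LinearMap.congr_fun h2 b
    · rw [hX.noOdd i a hi ha, zero_mul, mul_zero]
  have h2 : LinearMap.mulRight K b = LinearMap.mulLeft K b := by
    apply ext_gr H
    intro i a ha
    exact h1 i a ha b
  exact LinearMap.congr_fun h2 a

noncomputable instance evCommRing [hX : EvenVar H X] : CommRing (H.A X) :=
  { (inferInstance : Ring (H.A X)) with mul_comm := even_comm }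

instance [hX : EvenVar H X] [hY : EvenVar H Y] : EvenVar H (X.prod Y) where
  gc := hX.gc
  noOdd := by
    intro i a hi ha
    have h1 := H.kunneth X Y i ha
    have h2 : ∀ c ∈ Submodule.span K {c | ∃ (l : ℤ) (a : H.A X) (b : H.A Y), a ∈ H.gr X l ∧
        b ∈ H.gr Y (i - l) ∧ c = H.pull (fst X Y) a * H.pull (snd X Y) b}, c = 0 := by
      intro c hc
      induction hc using Submodule.span_induction with
      | mem x hx =>
        obtain ⟨l, a, b, ha, hb, rfl⟩ := hx
        rcases Int.even_or_odd l with hl | hl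
        · rw [hY.noOdd (i - l) b (hi.sub_even hl) hb, map_zero, mul_zero]
        · rw [hX.noOdd l a hl ha, map_zero, zero_mul]
      | zero => rfl
      | add x y _ _ hx hy => rw [hx, hy, add_zero]
      | smul r x _ hx => rw [hx, smul_zero]
    exact h2 a h1

instance evPw [hX : EvenVar H X] (n : ℕ) : EvenVar H (pw X n) := by
  induction n with
  | zero => exact hX
  | succ n ih => exact (inferInstance : EvenVar H ((pw X n).prod X))

/-! ### Integrals -/

variable (C X) in
omit hH in
lemma pt_ex : ∃ a : C.A X, C.Deg X.dim a ∧ HasDegree C a 1 := exists_pt X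

variable (H X) in
/-- The orientation of the class of a point. -/
noncomputable def kap : K := H.tr X (H.cl (pt_ex C X).choose)

lemma kap_ne : kap H X ≠ 0 := by
  intro h
  have ho := (pt_ex C X).choose_spec.1
  have hd := (pt_ex C X).choose_spec.2
  exact cl_o_ne H ho hd (tr_mul_eq_zero H _ (H.cl_mem ho) h)

variable (H X) in
/-- The integral. -/
noncomputable def intg : H.A X →ₗ[K] K := (kap H X)⁻¹ • H.tr X

lemma intg_apply (a : H.A X) : intg H X a = (kap H X)⁻¹ * H.tr X a := rfl

lemma push_fst_pull_snd (b : H.A Y) :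
    H.push (fst X Y) (H.pull (snd X Y) b) = intg H Y b • (1 : H.A X) := by
  have ho := (pt_ex C Y).choose_spec.1
  have hd := (pt_ex C Y).choose_spec.2
  have h0 : (H.push (fst X Y) ∘ₗ (H.pull (snd X Y)).toLinearMap) =
      (LinearMap.toSpanSingleton K (H.A X) 1) ∘ₗ intg H Y := by
    apply ext_gr H
    intro i b hb
    rw [LinearMap.comp_apply, LinearMap.comp_apply, LinearMap.toSpanSingleton_apply,
      AlgHom.toLinearMap_apply]
    by_cases hi : i = 2 * Y.dim
    · subst hi
      obtain ⟨c, rfl⟩ := top_eq H ho hd hb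
      rw [map_smul, map_smul, map_smul, ← H.cl_pull, ← H.cl_push, (hd X).2, one_smul, map_one]
      have h1 : intg H Y (H.cl (pt_ex C Y).choose) = 1 := by
        rw [intg_apply]
        exact inv_mul_cancel₀ kap_ne
      rw [h1, smul_eq_mul, mul_one]
    · have h1 : intg H Y b = 0 := by
        rw [intg_apply, tr_zero H hb hi, mul_zero]
      rw [h1, zero_smul]
      by_cases hb0 : b = 0
      · rw [hb0, map_zero, map_zero]
      have h2 : ¬ 2 * (Y.dim : ℤ) < i := fun h => by
        rw [gr_top H h] at hb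
        exact hb0 ((Submodule.mem_bot _).1 hb)
      have h3 := H.push_mem (fst X Y) (H.pull_mem (snd X Y) hb)
      rw [H.gr_neg X _ (by rw [dim_prod]; push_cast; omega)] at h3
      exact (Submodule.mem_bot _).1 h3
  exact LinearMap.congr_fun h0 b

lemma push_snd_pull_fst (a : H.A X) :
    H.push (snd X Y) (H.pull (fst X Y) a) = intg H X a • (1 : H.A Y) := by
  have ho := (pt_ex C X).choose_spec.1
  have hd := (pt_ex C X).choose_spec.2
  have h0 : (H.push (snd X Y) ∘ₗ (H.pull (fst X Y)).toLinearMap) =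
      (LinearMap.toSpanSingleton K (H.A Y) 1) ∘ₗ intg H X := by
    apply ext_gr H
    intro i b hb
    rw [LinearMap.comp_apply, LinearMap.comp_apply, LinearMap.toSpanSingleton_apply,
      AlgHom.toLinearMap_apply]
    by_cases hi : i = 2 * X.dim
    · subst hi
      obtain ⟨c, rfl⟩ := top_eq H ho hd hb
      rw [map_smul, map_smul, map_smul, ← H.cl_pull, ← H.cl_push, (hd Y).1, one_smul, map_one]
      have h1 : intg H X (H.cl (pt_ex C X).choose) = 1 := by
        rw [intg_apply]
        exact inv_mul_cancel₀ kap_ne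
      rw [h1, smul_eq_mul, mul_one]
    · have h1 : intg H X b = 0 := by
        rw [intg_apply, tr_zero H hb hi, mul_zero]
      rw [h1, zero_smul]
      by_cases hb0 : b = 0
      · rw [hb0, map_zero, map_zero]
      have h2 : ¬ 2 * (X.dim : ℤ) < i := fun h => by
        rw [gr_top H h] at hb
        exact hb0 ((Submodule.mem_bot _).1 hb)
      have h3 := H.push_mem (snd X Y) (H.pull_mem (fst X Y) hb)
      rw [H.gr_neg Y _ (by rw [dim_prod]; push_cast; omega)] at h3
      exact (Submodule.mem_bot _).1 h3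
  exact LinearMap.congr_fun h0 a

lemma tr_ext (a : H.A X) (b : H.A Y) :
    H.tr (X.prod Y) (H.pull (fst X Y) a * H.pull (snd X Y) b) = intg H Y b * H.tr X a := by
  rw [← H.tr_push (fst X Y), H.proj_left, push_fst_pull_snd, mul_smul_comm, mul_one, map_smul,
    smul_eq_mul]

lemma tr_ext' (a : H.A X) (b : H.A Y) :
    H.tr (X.prod Y) (H.pull (fst X Y) a * H.pull (snd X Y) b) = intg H X a * H.tr Y b := by
  rw [← H.tr_push (snd X Y), H.proj_right, push_snd_pull_fst, smul_mul_assoc, one_mul, map_smul,
    smul_eq_mul]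

lemma intg_pt {a : C.A X} (hd : HasDegree C a 1) : intg H X (H.cl a) = 1 := by
  have h1 := push_fst_pull_snd (X := X) (H := H) (H.cl a)
  rw [← H.cl_pull, ← H.cl_push, (hd X).2, one_smul, map_one] at h1
  by_contra h
  have h2 : (intg H X (H.cl a) - 1) • (1 : H.A X) = 0 := by rw [sub_smul, ← h1, one_smul, sub_self]
  rcases smul_eq_zero.1 h2 with h3 | h3
  · exact h (sub_eq_zero.1 h3)
  · exact hH.one_ne_zero X h3

lemma kap_eq (X Y : 𝒱.Obj) : kap H X = kap H Y := by
  have h1 := tr_ext (H := H) (H.cl (pt_ex C X).choose) (H.cl (pt_ex C Y).choose)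
  rw [tr_ext', intg_pt (pt_ex C X).choose_spec.2, intg_pt (pt_ex C Y).choose_spec.2, one_mul,
    one_mul] at h1
  exact h1.symm

lemma intg_ext (a : H.A X) (b : H.A Y) :
    intg H (X.prod Y) (H.pull (fst X Y) a * H.pull (snd X Y) b) = intg H X a * intg H Y b := by
  rw [intg_apply, tr_ext, kap_eq (X.prod Y) X, intg_apply, intg_apply]
  ring

variable (H) in
lemma charZero (X : 𝒱.Obj) : CharZero K := by
  refine charZero_of_inj_zero fun n hn => ?_
  by_contra hn0
  have h1 : ((n : ℚ) : ℚ) ≠ 0 := by exact_mod_cast hn0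
  have h2 : (algebraMap ℚ (C.A X) ((n : ℚ)⁻¹)) * (n : C.A X) = 1 := by
    rw [← map_natCast (algebraMap ℚ (C.A X)) n, ← map_mul, inv_mul_cancel₀ h1, map_one]
  have h3 := congrArg H.cl h2
  rw [map_mul, map_natCast, map_one] at h3
  have h4 : ((n : ℕ) : H.A X) = algebraMap K (H.A X) (n : K) := by rw [map_natCast]
  rw [h4, hn, map_zero, mul_zero] at h3
  exact hH.one_ne_zero X h3.symm

omit hC hH in
lemma clsmul [CharZero K] (c : ℚ) (z : C.A X) : H.cl (c • z) = (c : K) • H.cl z := by
  have h1 : H.cl (algebraMap ℚ (C.A X) c) = algebraMap K (H.A X) (c : K) := by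
    have h2 : (H.cl).comp (algebraMap ℚ (C.A X)) =
        (algebraMap K (H.A X)).comp (algebraMap ℚ K) := Subsingleton.elim _ _
    have h3 := RingHom.congr_fun h2 c
    rw [RingHom.comp_apply, RingHom.comp_apply, eq_ratCast (algebraMap ℚ K)] at h3
    exact h3
  rw [Algebra.smul_def, map_mul, h1, Algebra.smul_def]

lemma intg_cl [CharZero K] {a : C.A X} {q : ℚ} (hd : HasDegree C a q) :
    intg H X (H.cl a) = (q : K) := by
  have h1 := push_fst_pull_snd (X := X) (H := H) (H.cl a)
  rw [← H.cl_pull, ← H.cl_push, (hd X).2, clsmul, map_one] at h1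
  by_contra h
  have h2 : (intg H X (H.cl a) - (q : K)) • (1 : H.A X) = 0 := by rw [sub_smul, ← h1, sub_self]
  rcases smul_eq_zero.1 h2 with h3 | h3
  · exact h (sub_eq_zero.1 h3)
  · exact hH.one_ne_zero X h3

/-! ### Dual bases -/

variable (H X) in
lemma exists_kun : ∃ (m : ℕ) (u v : Fin m → H.A X),
      H.cl (dg C X) = ∑ i, H.pull (fst X X) (u i) * H.pull (snd X X) (v i) := by
  have h1 := H.kunneth X X _ (H.cl_mem (dg_mem C X))
  obtain ⟨m, f, g, hfg⟩ := Submodule.mem_span_set'.1 h1
  choose p u v hu hv huv using fun i => (g i).2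
  refine ⟨m, fun i => f i • u i, v, ?_⟩
  rw [← hfg]
  apply Finset.sum_congr rfl
  intro i _
  rw [huv i, map_smul, smul_mul_assoc]

lemma expand [hX : EvenVar H X] {ι : Type} [Fintype ι] {u v : ι → H.A X}
    (h : H.cl (dg C X) = ∑ i, H.pull (fst X X) (u i) * H.pull (snd X X) (v i)) (a : H.A X) :
    a = ∑ i, intg H X (u i * a) • v i := by
  have h1 : H.act (H.cl (dg C X)) a = a := actH_dg H a
  rw [TheoryData.act_apply, h, Finset.sum_mul, map_sum] at h1
  conv_lhs => rw [← h1]
  refine Finset.sum_congr rfl fun i _ => ?_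
  have h2 : H.pull (fst X X) (u i) * H.pull (snd X X) (v i) * H.pull (fst X X) a =
      H.pull (fst X X) (u i * a) * H.pull (snd X X) (v i) := by
    rw [map_mul, mul_assoc, even_comm (H.pull (snd X X) (v i)), mul_assoc]
  rw [h2, H.proj_right, push_snd_pull_fst, smul_mul_assoc, one_mul]

variable (H X) in
lemma finite_coh [hX : EvenVar H X] : Module.Finite K (H.A X) := by
  obtain ⟨m, u, v, h⟩ := exists_kun H X
  refine ⟨⟨(Set.finite_range v).toFinset, ?_⟩⟩
  rw [Set.Finite.coe_toFinset, eq_top_iff]
  intro a _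
  rw [expand h a]
  exact Submodule.sum_mem _ fun i _ => Submodule.smul_mem _ _ (Submodule.subset_span ⟨i, rfl⟩)

variable (H X) in
lemma exists_dual [hX : EvenVar H X] : ∃ e f : Fin (Module.finrank K (H.A X)) → H.A X,
    H.cl (dg C X) = ∑ i, H.pull (fst X X) (e i) * H.pull (snd X X) (f i) ∧
    (∀ i j, intg H X (e i * f j) = if i = j then 1 else 0) ∧
    ∀ a : H.A X, a = ∑ i, intg H X (e i * a) • f i := by
  have := finite_coh H X
  obtain ⟨m, u, v, h⟩ := exists_kun H X
  let B := Module.finBasis K (H.A X)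
  let f : Fin (Module.finrank K (H.A X)) → H.A X := fun j => ∑ i, B.repr (u i) j • v i
  have h1 : H.cl (dg C X) = ∑ i, H.pull (fst X X) (B i) * H.pull (snd X X) (f i) := by
    rw [h]
    have h2 : ∀ i, H.pull (fst X X) (u i) * H.pull (snd X X) (v i) =
        ∑ j, H.pull (fst X X) (B j) * H.pull (snd X X) (B.repr (u i) j • v i) := by
      intro i
      conv_lhs => rw [← B.sum_repr (u i)]
      rw [map_sum, Finset.sum_mul]
      refine Finset.sum_congr rfl fun j _ => ?_
      rw [map_smul, map_smul, smul_mul_assoc, mul_smul_comm]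
    rw [Finset.sum_congr rfl fun i _ => h2 i, Finset.sum_comm]
    refine Finset.sum_congr rfl fun j _ => ?_
    rw [← Finset.mul_sum, ← map_sum]
  have h3 : ∀ a : H.A X, a = ∑ i, intg H X (B i * a) • f i := fun a => expand h1 a
  have h4 : LinearIndependent K f := by
    apply linearIndependent_of_top_le_span_of_card_eq_finrank
    · intro a _
      rw [h3 a]
      exact Submodule.sum_mem _ fun i _ => Submodule.smul_mem _ _ (Submodule.subset_span ⟨i, rfl⟩)
    · rw [Fintype.card_fin]
  refine ⟨B, f, h1, fun i j => ?_, h3⟩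
  have h5 := h3 (f j)
  have h6 : ∑ i, (intg H X (B i * f j) - if i = j then 1 else 0) • f i = 0 := by
    simp_rw [sub_smul, Finset.sum_sub_distrib, ← h5, ite_smul, one_smul, zero_smul]
    rw [Finset.sum_ite_eq' Finset.univ j f, if_pos (Finset.mem_univ j), sub_self]
  exact sub_eq_zero.1 (Fintype.linearIndependent_iff.1 h4 _ h6 i)

end Pool.Agent.K3h85.PG
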