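import Pool.Agent.K3h85.PG.Main

/-!
# Homologically trivial cycles of fixed codimension on the powers of a variety
-/

open CategoryTheory AlgebraicGeometry Filter

universe u v w

namespace Pool.Agent.K3h85.PG

open Pool.Agent.H914 Pool.Agent.H914.VarClass Pool.Agent.H914.VarClass.Obj Pool.Agent.W492.BB
  Pool.Agent.W550.Corr Pool.Agent.TH133 Pool.Agent.TH829.Prime Pool.Agent.TH829.Kim
  Pool.Agent.Y148.BB Pool.Agent.Y110
open Pool.Agent.V1151.DG (pw)
open Pool.Agent.V1151.DV (pull_pull)

set_option linter.unusedSectionVars false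

variable {k : Type u} [Field k] {𝒱 : VarClass k} {C : TheoryData.{u, v, 0} 𝒱 ℚ}
  [hC : IsChowProj C] {K : Type w} [Field K]
  {H : WeilTheoryData.{u, v, w} C K} [hH : IsWeilProj H] {X Y Z W : 𝒱.Obj}

lemma fin01 (i j : Fin (0 + 1)) : i = j := Fin.ext (by omega)

lemma exists_pwl (X : 𝒱.Obj) (n : ℕ) {W : 𝒱.Obj} (f : Fin (n + 1) → (W ⟶ X)) :
    ∃ g : W ⟶ pw X n, ∀ i, g ≫ prj X n i = f i := by
  induction n with
  | zero =>
    refine ⟨f 0, fun i => ?_⟩
    rw [fin01 i 0]
    exact Category.comp_id _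
  | succ n ih =>
    obtain ⟨g, hg⟩ := ih (fun i => f i.castSucc)
    refine ⟨Obj.lift g (f (Fin.last (n + 1))), fun i => ?_⟩
    refine Fin.lastCases ?_ (fun i => ?_) i
    · rw [prj_last]
      exact lift_snd _ _
    · rw [prj_castSucc]
      have h1 : Obj.lift g (f (Fin.last (n + 1))) ≫ fst (pw X n) X ≫ prj X n i = g ≫ prj X n i := by
        rw [← Category.assoc, lift_fst]
      exact h1.trans (hg i)

lemma pw_ext {X : 𝒱.Obj} {n : ℕ} {W : 𝒱.Obj} (f g : W ⟶ pw X n)
    (h : ∀ i, f ≫ prj X n i = g ≫ prj X n i) : f = g := by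
  induction n with
  | zero =>
    have h1 := h 0
    have h2 : ∀ x : W ⟶ pw X 0, x ≫ prj X 0 0 = x := fun x => Category.comp_id x
    rw [h2, h2] at h1
    exact h1
  | succ n ih =>
    have h1 := h (Fin.last (n + 1))
    rw [prj_last] at h1
    have h2 : f ≫ fst (pw X n) X = g ≫ fst (pw X n) X := by
      apply ih
      intro i
      have h3 := h i.castSucc
      rw [prj_castSucc] at h3
      exact (Category.assoc f (fst (pw X n) X) (prj X n i)).trans
        (h3.trans (Category.assoc g (fst (pw X n) X) (prj X n i)).symm)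
    exact prod_ext h2 h1

/-- The morphism to a power given by its components. -/
noncomputable def pwl (n : ℕ) (f : Fin (n + 1) → (W ⟶ X)) : W ⟶ pw X n :=
  (exists_pwl X n f).choose

lemma pwl_prj (n : ℕ) (f : Fin (n + 1) → (W ⟶ X)) (i : Fin (n + 1)) :
    pwl n f ≫ prj X n i = f i := (exists_pwl X n f).choose_spec i

variable (X) in
/-- The projection to the factors of a power given by a map of the indices. -/
noncomputable def sbp {m n : ℕ} (g : Fin (m + 1) → Fin (n + 1)) : pw X n ⟶ pw X m :=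
  pwl m (fun l => prj X n (g l))

lemma sbp_prj {m n : ℕ} (g : Fin (m + 1) → Fin (n + 1)) (l : Fin (m + 1)) :
    sbp X g ≫ prj X m l = prj X n (g l) := pwl_prj _ _ _

variable (X) in
/-- The replacement of the coordinate `i`. -/
noncomputable def rpl {n : ℕ} (i : Fin (n + 1)) : (pw X n).prod X ⟶ pw X n :=
  pwl n (fun j => if j = i then snd (pw X n) X else fst (pw X n) X ≫ prj X n j)

lemma rpl_prj {n : ℕ} (i j : Fin (n + 1)) : rpl X i ≫ prj X n j =
    if j = i then snd (pw X n) X else fst (pw X n) X ≫ prj X n j := pwl_prj _ _ _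

/-- The operator replacing the dependence on the coordinate `i` by the value at the zero-cycle
`o`. -/
noncomputable def eo (o : C.A X) {n : ℕ} (i : Fin (n + 1)) : Module.End ℚ (C.A (pw X n)) :=
  C.push (fst (pw X n) X) ∘ₗ LinearMap.mulRight ℚ (C.pull (snd (pw X n) X) o) ∘ₗ
    (C.pull (rpl X i)).toLinearMap

include hC

lemma eo_apply (o : C.A X) {n : ℕ} (i : Fin (n + 1)) (y : C.A (pw X n)) :
    eo o i y = C.push (fst (pw X n) X) (C.pull (rpl X i) y * C.pull (snd (pw X n) X) o) := rfl

lemma eo_fix {o : C.A X} (ho : HasDegree C o 1) {m n : ℕ} (g : Fin (m + 1) → Fin (n + 1))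
    {i : Fin (n + 1)} (hi : ∀ l, g l ≠ i) (t : C.A (pw X m)) :
    eo o i (C.pull (sbp X g) t) = C.pull (sbp X g) t := by
  have h1 : rpl X i ≫ sbp X g = fst (pw X n) X ≫ sbp X g := by
    apply pw_ext
    intro l
    rw [Category.assoc, Category.assoc, sbp_prj, rpl_prj, if_neg (hi l)]
  rw [eo_apply, ← C.pull_comp, h1, C.pull_comp, C.proj_left, (ho (pw X n)).2, one_smul, mul_one]

lemma eo_hit (o : C.A X) {m n : ℕ} (g : Fin (m + 1) → Fin (n + 1))
    (hg : Function.Injective g) (l : Fin (m + 1)) (t : C.A (pw X m)) :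
    eo o (g l) (C.pull (sbp X g) t) = C.pull (sbp X g) (eo o l t) := by
  have h1 : rpl X (g l) ≫ sbp X g = prodMap (sbp X g) (𝟙 X) ≫ rpl X l := by
    apply pw_ext
    intro j
    rw [Category.assoc, Category.assoc, sbp_prj, rpl_prj, rpl_prj]
    by_cases hj : j = l
    · rw [if_pos (congrArg g hj), if_pos hj, prodMap_snd, Category.comp_id]
    · rw [if_neg fun h => hj (hg h), if_neg hj, prodMap_fst_assoc, sbp_prj]
  have h2 : C.pull (snd (pw X n) X) o =
      C.pull (prodMap (sbp X g) (𝟙 X)) (C.pull (snd (pw X m) X) o) := by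
    rw [← C.pull_comp, prodMap_snd, Category.comp_id]
  rw [eo_apply, eo_apply, base_pull, ← C.pull_comp, h1, h2, C.pull_comp,
    map_mul (C.pull (prodMap (sbp X g) (𝟙 X)))]

include hH

lemma eo_zero {o : C.A X} (ho0 : C.Deg X.dim o) {r : ℕ} (hr : 0 < r) {m : ℕ}
    (hm : ∀ j < m, InjectiveIn H r (pw X j)) {t : C.A (pw X m)} (ht : C.Deg r t)
    (ht0 : H.cl t = 0) (l : Fin (m + 1)) : eo o l t = 0 := by
  cases m with
  | zero =>
    have h1 : rpl X l = snd (pw X 0) X := by
      apply pw_ext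
      intro j
      rw [rpl_prj, if_pos (fin01 j l), fin01 j 0]
      exact (Category.comp_id _).symm
    let t' : C.A X := t
    have h2 : C.Deg (r + X.dim) (t' * o) := C.mul_mem (X := X) ht ho0
    have h3 : t' * o = 0 := hC.gr_top X _ _ h2 (by omega)
    rw [eo_apply, h1]
    have h5 : C.pull (snd (pw X 0) X) t' * C.pull (snd (pw X 0) X) o = 0 := by
      have h4 := map_mul (C.pull (snd (pw X 0) X)) t' o
      rw [h3, map_zero] at h4
      exact h4.symm
    exact (congrArg _ h5).trans (map_zero _)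
  | succ m =>
    let c : (pw X m).prod X ⟶ pw X (m + 1) := pwl (m + 1)
      (l.insertNth (α := fun _ => ((pw X m).prod X ⟶ X)) (snd (pw X m) X)
        (fun j => fst (pw X m) X ≫ prj X m j))
    have hc1 : c ≫ prj X (m + 1) l = snd (pw X m) X := by
      rw [pwl_prj, Fin.insertNth_apply_same]
    have hc2 : ∀ j, c ≫ prj X (m + 1) (l.succAbove j) = fst (pw X m) X ≫ prj X m j := by
      intro j
      rw [pwl_prj, Fin.insertNth_apply_succAbove]
    have h1 : rpl X l = prodMap (sbp X l.succAbove) (𝟙 X) ≫ c := by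
      apply pw_ext
      intro j
      rw [Category.assoc]
      rcases Fin.eq_self_or_eq_succAbove l j with hj | ⟨j, rfl⟩
      · rw [hj, rpl_prj, if_pos rfl, hc1, prodMap_snd, Category.comp_id]
      · rw [rpl_prj, if_neg (Fin.succAbove_ne l j), hc2, prodMap_fst_assoc, sbp_prj]
    have h2 : C.pull (snd (pw X (m + 1)) X) o =
        C.pull (prodMap (sbp X l.succAbove) (𝟙 X)) (C.pull (snd (pw X m) X) o) := by
      rw [← C.pull_comp, prodMap_snd, Category.comp_id]
    have h3 : eo o l t = C.pull (sbp X l.succAbove)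
        (C.push (fst (pw X m) X) (C.pull c t * C.pull (snd (pw X m) X) o)) := by
      rw [eo_apply, base_pull, h1, h2, C.pull_comp,
        map_mul (C.pull (prodMap (sbp X l.succAbove) (𝟙 X)))]
    have h4 : C.push (fst (pw X m) X) (C.pull c t * C.pull (snd (pw X m) X) o) = 0 := by
      apply hm m (Nat.lt_succ_self m)
      · have h5 := C.push_mem (fst (pw X m) X)
          (C.mul_mem (C.pull_mem c ht) (C.pull_mem (snd (pw X m) X) ho0))
        have e1 : (r : ℤ) + X.dim + 1 * (((pw X m).dim : ℤ) - (((pw X m).prod X).dim : ℤ)) =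
            r := by
          rw [dim_prod]; push_cast; ring
        rwa [e1] at h5
      · rw [H.cl_push, map_mul, H.cl_pull, ht0, map_zero, zero_mul, map_zero]
    rw [h3, h4, map_zero]

omit hH in
lemma pull_sbp_inj {m n : ℕ} (g : Fin (m + 1) → Fin (n + 1)) (hg : Function.Injective g)
    {t : C.A (pw X m)} (h : C.pull (sbp X g) t = 0) : t = 0 := by
  classical
  have h1 : pwl n (fun j => prj X m (Function.invFun g j)) ≫ sbp X g = 𝟙 (pw X m) := by
    apply pw_ext
    intro l
    rw [Category.assoc, sbp_prj, pwl_prj, Function.leftInverse_invFun hg l, Category.id_comp]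
  rw [← pull_pull (C := C) _ _ h1 t, h, map_zero]

omit hH in
lemma list_eo (o : C.A X) (ho : HasDegree C o 1) {m n : ℕ} (g : Fin (m + 1) → Fin (n + 1))
    (hg : Function.Injective g) {t : C.A (pw X m)} (ht : ∀ l, eo o l t = 0)
    (L : List (Fin (n + 1))) : (L.map (eo o)).prod (C.pull (sbp X g) t) =
      if ∃ l, g l ∈ L then 0 else C.pull (sbp X g) t := by
  induction L with
  | nil => simp
  | cons i L ih =>
    rw [List.map_cons, List.prod_cons, Module.End.mul_apply, ih]
    by_cases h1 : ∃ l, g l ∈ L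
    · obtain ⟨l, hl⟩ := h1
      rw [if_pos ⟨l, hl⟩, map_zero, if_pos ⟨l, List.mem_cons_of_mem _ hl⟩]
    · rw [if_neg h1]
      by_cases h2 : ∃ l, g l = i
      · obtain ⟨l, rfl⟩ := h2
        rw [eo_hit o g hg, ht, map_zero, if_pos ⟨l, List.mem_cons_self⟩]
      · push Not at h1 h2
        rw [eo_fix ho g h2, if_neg]
        rintro ⟨l, hl⟩
        rcases List.mem_cons.1 hl with h3 | h3
        · exact h2 l h3
        · exact h1 l h3

lemma homInGE_fintype {r : ℕ} {ι : Type} [Fintype ι] (t : ι → C.A Y)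
    (ht : ∀ i, C.Deg r (t i) ∧ H.cl (t i) = 0) (hli : LinearIndependent ℚ t) :
    HomInGE H r Y (Fintype.card ι) :=
  ⟨t ∘ (Fintype.equivFin ι).symm, fun i => ht _, hli.comp _ (Fintype.equivFin ι).symm.injective⟩

/-- The classes on `X ^ (m + 1)` give many classes on `X ^ (n + 1)`. -/
theorem homIn_choose {r : ℕ} (hr : 0 < r) {m : ℕ} (hm : ∀ j < m, InjectiveIn H r (pw X j))
    {d : ℕ} (hd : HomInGE H r (pw X m) d) (n : ℕ) :
    HomInGE H r (pw X n) ((n + 1).choose (m + 1) * d) := by
  classical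
  obtain ⟨t, ht, hti⟩ := hd
  obtain ⟨o, ho0, ho⟩ := pt_ex C X
  let S := {s : Finset (Fin (n + 1)) // s.card = m + 1}
  let g : S → Fin (m + 1) → Fin (n + 1) := fun s => s.1.orderEmbOfFin s.2
  have hg : ∀ s, Function.Injective (g s) := fun s => (s.1.orderEmbOfFin s.2).injective
  have hgs : ∀ (s : S) (i : Fin (n + 1)), i ∈ s.1 → ∃ l, g s l = i := by
    intro s i hi
    have h1 : i ∈ Set.range (s.1.orderEmbOfFin s.2) := by
      rw [Finset.range_orderEmbOfFin]
      exact hi
    exact h1
  have hgm : ∀ (s : S) (l : Fin (m + 1)), g s l ∈ s.1 := fun s l =>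
    Finset.orderEmbOfFin_mem s.1 s.2 l
  have hz : ∀ a l, eo o l (t a) = 0 := fun a l => eo_zero ho0 hr hm (ht a).1 (ht a).2 l
  have hcard : Fintype.card (S × Fin d) = (n + 1).choose (m + 1) * d := by
    rw [Fintype.card_prod, Fintype.card_fin]
    congr 1
    have h1 := Fintype.card_finset_len (α := Fin (n + 1)) (m + 1)
    rwa [Fintype.card_fin] at h1
  rw [← hcard]
  refine homInGE_fintype (fun p : S × Fin d => C.pull (sbp X (g p.1)) (t p.2)) (fun p => ?_) ?_
  · exact ⟨C.pull_mem _ (ht p.2).1, by rw [H.cl_pull, (ht p.2).2, map_zero]⟩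
  · rw [Fintype.linearIndependent_iff] at hti ⊢
    rintro c hc ⟨s0, a0⟩
    have h1 := congrArg (((Finset.univ \ s0.1).toList.map (eo o)).prod) hc
    rw [map_sum, map_zero, Fintype.sum_prod_type, Finset.sum_eq_single s0] at h1
    · simp only [map_smul] at h1
      have h2 : ∀ a, ((Finset.univ \ s0.1).toList.map (eo o)).prod
          (C.pull (sbp X (g s0)) (t a)) = C.pull (sbp X (g s0)) (t a) := by
        intro a
        rw [list_eo o ho _ (hg s0) (hz a), if_neg]
        rintro ⟨l, hl⟩
        rw [Finset.mem_toList, Finset.mem_sdiff] at hl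
        exact hl.2 (hgm s0 l)
      simp only [h2] at h1
      have h3 : C.pull (sbp X (g s0)) (∑ a, c (s0, a) • t a) = 0 := by
        rw [map_sum]
        simpa only [map_smul] using h1
      exact hti _ (pull_sbp_inj _ (hg s0) h3) a0
    · intro s _ hs
      refine Finset.sum_eq_zero fun a _ => ?_
      rw [map_smul, list_eo o ho _ (hg s) (hz a), if_pos, smul_zero]
      have h2 : ¬ s.1 ⊆ s0.1 := fun h => hs (Subtype.ext
        (Finset.eq_of_subset_of_card_le h (by rw [s.2, s0.2])))
      obtain ⟨i, hi, hi0⟩ := Finset.not_subset.1 h2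
      obtain ⟨l, rfl⟩ := hgs s i hi
      exact ⟨l, by rw [Finset.mem_toList, Finset.mem_sdiff]; exact ⟨Finset.mem_univ _, hi0⟩⟩
    · intro h
      exact absurd (Finset.mem_univ s0) h

/-- The growth criterion in fixed codimension. -/
theorem growthIn_iff {r : ℕ} (hr : 0 < r) {m : ℕ} (hm : ∀ j < m, InjectiveIn H r (pw X j)) :
    (∀ n, InjectiveIn H r (pw X n)) ↔ SlowGrowthIn H r m X := by
  constructor
  · intro h ε hε
    refine (Eventually.of_forall fun n d hd => ?_).frequently
    obtain ⟨t, ht, hti⟩ := hd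
    have h0 : d = 0 := by
      by_contra h0
      exact hti.ne_zero ⟨0, Nat.pos_of_ne_zero h0⟩ (h n _ (ht _).1 (ht _).2)
    rw [h0, Nat.cast_zero]
    positivity
  · intro h
    by_contra hcon
    push Not at hcon
    classical
    set m' := Nat.find hcon with hm'
    have h1 : ¬ InjectiveIn H r (pw X m') := Nat.find_spec hcon
    have h2 : ∀ j < m', InjectiveIn H r (pw X j) := fun j hj => not_not.1 (Nat.find_min hcon hj)
    have hmm : m ≤ m' := by
      by_contra h3
      exact h1 (hm m' (by omega))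
    have h3 : ∀ n, HomInGE H r (pw X n) ((n + 1).choose (m' + 1) * 1) := fun n =>
      homIn_choose hr h2 (homIn_one h1) n
    set M := m' + 1 with hM
    have hf : (0 : ℝ) < M.factorial := by exact_mod_cast M.factorial_pos
    obtain ⟨n, hn, hn2⟩ := ((h (1 / (2 ^ (M + 1) * M.factorial)) (by positivity)).and_eventually
      (eventually_ge_atTop (2 * M))).exists
    have h4 := hn _ (h3 n)
    rw [mul_one] at h4
    have h5 : (((n + 1 + 1 - M : ℕ) ^ M : ℕ) : ℝ) ≤ (M.factorial : ℝ) * ((n + 1).choose M : ℝ) := by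
      have := Nat.pow_le_choose (α := ℝ) M (n + 1)
      rw [div_le_iff₀ hf] at this
      push_cast at this ⊢
      linarith
    have hN : (0 : ℝ) < (n : ℝ) + 1 := by positivity
    have h6 : ((n : ℝ) + 1) / 2 ≤ ((n + 1 + 1 - M : ℕ) : ℝ) := by
      have h7 : n + 1 ≤ 2 * (n + 1 + 1 - M) := by omega
      have h8 : ((n : ℝ) + 1) ≤ 2 * ((n + 1 + 1 - M : ℕ) : ℝ) := by exact_mod_cast h7
      linarith
    have h7 : (((n : ℝ) + 1) / 2) ^ M ≤ (M.factorial : ℝ) * ((n + 1).choose M : ℝ) := by
      refine le_trans ?_ h5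
      push_cast
      exact pow_le_pow_left₀ (by positivity) h6 M
    have h8 : ((n : ℝ) + 1) ^ (m + 1) ≤ ((n : ℝ) + 1) ^ M :=
      pow_le_pow_right₀ (by linarith) (by omega)
    have h9 : ((n + 1).choose M : ℝ) ≤ 1 / (2 ^ (M + 1) * M.factorial) * ((n : ℝ) + 1) ^ M :=
      h4.trans (mul_le_mul_of_nonneg_left h8 (by positivity))
    have h10 : (((n : ℝ) + 1) / 2) ^ M ≤ (((n : ℝ) + 1) / 2) ^ M / 2 := by
      refine h7.trans ?_
      refine (mul_le_mul_of_nonneg_left h9 hf.le).trans (le_of_eq ?_)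
      rw [div_pow, pow_succ (2 : ℝ) M]
      field_simp
    have h11 : 0 < (((n : ℝ) + 1) / 2) ^ M := by positivity
    linarith

/-- The odd cohomology in low degrees of a power. -/
lemma noOddBelow_pw {r : ℕ} (h : NoOddBelow H r X) (n : ℕ) : NoOddBelow H r (pw X n) := by
  induction n with
  | zero => exact h
  | succ n ih =>
    intro i a hi hir ha
    have h1 := H.kunneth (pw X n) X i ha
    have h2 : ∀ c ∈ Submodule.span K {c | ∃ (l : ℤ) (a : H.A (pw X n)) (b : H.A X),
        a ∈ H.gr (pw X n) l ∧ b ∈ H.gr X (i - l) ∧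
        c = H.pull (fst (pw X n) X) a * H.pull (snd (pw X n) X) b}, c = 0 := by
      intro c hc
      induction hc using Submodule.span_induction with
      | mem x hx =>
        obtain ⟨l, a, b, ha, hb, rfl⟩ := hx
        by_cases ha0 : a = 0
        · rw [ha0, map_zero, zero_mul]
        by_cases hb0 : b = 0
        · rw [hb0, map_zero, mul_zero]
        have hl := nonneg_of_mem H ha ha0
        have hl' := nonneg_of_mem H hb hb0
        rcases Int.even_or_odd l with hl2 | hl2
        · exact absurd (h (i - l) b (hi.sub_even hl2) (by omega) hb) hb0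
        · exact absurd (ih l a hl2 (by omega) ha) ha0
      | zero => rfl
      | add x y _ _ hx hy => rw [hx, hy, add_zero]
      | smul r x _ hx => rw [hx, smul_zero]
    exact h2 a h1

end Pool.Agent.K3h85.PG
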