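import Pool.Agent.K3h85.PG.Perm
import Pool.Agent.K3h85.PG.Defs

/-!
# Growth of the groups of homologically trivial cycles on the powers of a variety
-/

open CategoryTheory AlgebraicGeometry Filter

universe u v w

namespace Pool.Agent.K3h85.PG

open Pool.Agent.H914 Pool.Agent.H914.VarClass Pool.Agent.H914.VarClass.Obj Pool.Agent.W492.BB
  Pool.Agent.W550.Corr Pool.Agent.TH133 Pool.Agent.TH829.Prime Pool.Agent.TH829.Kim
  Pool.Agent.Y148.BB Pool.Agent.Y110
open Pool.Agent.V1151.DG (pw pw_iso)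
open Pool.Agent.V1151.DV (con con_sum con_ext pull_pull)

set_option linter.unusedSectionVars false

variable {k : Type u} [Field k] {𝒱 : VarClass k} {C : TheoryData.{u, v, 0} 𝒱 ℚ}
  [hC : IsChowProj C] {K : Type w} [Field K]
  {H : WeilTheoryData.{u, v, w} C K} [hH : IsWeilProj H] {X Y Z : 𝒱.Obj}

lemma hasDegree_sum {ι : Type*} (s : Finset ι) (x : ι → C.A Y) (q : ι → ℚ)
    (h : ∀ i, HasDegree C (x i) (q i)) : HasDegree C (∑ i ∈ s, x i) (∑ i ∈ s, q i) := by
  classical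
  induction s using Finset.induction_on with
  | empty => rw [Finset.sum_empty, Finset.sum_empty]; exact hasDegree_zero
  | insert i s hi ih =>
    rw [Finset.sum_insert hi, Finset.sum_insert hi]
    exact HasDegree.add (h i) ih

/-- There are `A` cycles of codimension `s` on `Y` which are linearly independent modulo numerical
equivalence. -/
def NumRankInGE (C : TheoryData.{u, v, 0} 𝒱 ℚ) (s : ℕ) (Y : 𝒱.Obj) (A : ℕ) : Prop :=
  ∃ w w' : Fin A → C.A Y, (∀ i, C.Deg s (w i)) ∧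
    ∀ i j, HasDegree C (w i * w' j) (if i = j then 1 else 0)

/-- There are many numerically independent cycles on the powers of `X`. -/
theorem numRank [hX : EvenVar H X] (n : ℕ) {A : ℕ}
    (hA : A ≤ (fixM (n + 1) (Fin (Module.finrank K (H.A X)))).rank) :
    NumRankInGE C ((n + 1) * X.dim) ((pw X n).prod (pw X n)) A := by
  obtain ⟨a, b, hab⟩ := exists_mul_mul _ hA
  refine ⟨fun i => ∑ σ, a i σ • permC C X n σ, fun j => ∑ τ, b τ j • permC C X n τ,
    fun i => ?_, fun i j => ?_⟩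
  · refine Submodule.sum_mem _ fun σ _ => Submodule.smul_mem _ _ ?_
    have h := permC_mem (C := C) (X := X) n σ
    rwa [pw_dim] at h
  have h1 : (∑ σ, a i σ • permC C X n σ) * (∑ τ, b τ j • permC C X n τ) =
      ∑ σ, ∑ τ, (a i σ * b τ j) • (permC C X n σ * permC C X n τ) := by
    rw [Finset.sum_mul_sum]
    refine Finset.sum_congr rfl fun σ _ => Finset.sum_congr rfl fun τ _ => ?_
    rw [smul_mul_smul_comm]
  have h2 : (if i = j then (1 : ℚ) else 0) = ∑ σ, ∑ τ, (a i σ * b τ j) *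
      fixM (n + 1) (Fin (Module.finrank K (H.A X))) σ τ := by
    have h3 := congrFun (congrFun hab i) j
    rw [Matrix.one_apply, Matrix.mul_apply] at h3
    rw [← h3, Finset.sum_comm]
    refine Finset.sum_congr rfl fun τ _ => ?_
    rw [Matrix.mul_apply, Finset.sum_mul]
    refine Finset.sum_congr rfl fun σ _ => ?_
    ring
  rw [h1, h2]
  exact hasDegree_sum _ _ _ fun σ => hasDegree_sum _ _ _ fun τ =>
    HasDegree.smul _ (hasDegree_permC n σ τ)

/-- Powers of the class of a hyperplane section. -/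
lemma numRankIn_one (Y : 𝒱.Obj) {s : ℕ} (hs : s ≤ Y.dim) : NumRankInGE C s Y 1 := by
  obtain ⟨h, hh, q, hq, hhq⟩ := hC.polarized Y
  have hpow : ∀ n : ℕ, h ^ n ∈ C.gr Y n := by
    intro n
    induction n with
    | zero =>
      rw [pow_zero]
      exact C.one_mem Y
    | succ n ih =>
      rw [pow_succ]
      have := C.mul_mem ih hh
      exact_mod_cast this
  obtain ⟨q', hq'⟩ := hC.degree Y _ (hpow Y.dim)
  have hd : HasDegree C (h ^ Y.dim) q' := hq'
  have hqq : q'⁻¹ * q' = 1 ∨ (1 : C.A Y) = 0 := by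
    by_cases h0 : q' = 0
    · right
      have h1 := (hq' Y).1
      rw [hhq, h0, zero_smul] at h1
      rcases smul_eq_zero.1 h1 with h2 | h2
      · exact absurd h2 hq
      · exact h2
    · exact Or.inl (inv_mul_cancel₀ h0)
  rcases hqq with hqq | h10
  · refine ⟨fun _ => h ^ s, fun _ => q'⁻¹ • h ^ (Y.dim - s), fun _ => hpow s, fun i j => ?_⟩
    rw [Subsingleton.elim i j, if_pos rfl, mul_smul_comm, ← pow_add, Nat.add_sub_cancel' hs]
    have := HasDegree.smul q'⁻¹ hd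
    rwa [hqq] at this
  · refine ⟨fun _ => 0, fun _ => 0, fun _ => Submodule.zero_mem _, fun i j => ?_⟩
    rw [Subsingleton.elim i j, if_pos rfl]
    obtain ⟨a, -, ha⟩ := pt_ex C Y
    have h1 : a = 0 := by rw [← mul_one a, h10, mul_zero]
    rw [h1] at ha
    rwa [mul_zero]

lemma homIn_prod {r s d A : ℕ} (hd : HomInGE H r X d) (hA : NumRankInGE C s Y A) :
    HomInGE H (r + s) (X.prod Y) (d * A) := by
  obtain ⟨t, ht, hti⟩ := hd
  obtain ⟨w, w', hws, hw⟩ := hA
  refine ⟨fun l => C.pull (fst X Y) (t (finProdFinEquiv.symm l).1) *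
    C.pull (snd X Y) (w (finProdFinEquiv.symm l).2), fun l => ⟨?_, ?_⟩, ?_⟩
  · have := C.mul_mem (C.pull_mem (fst X Y) (ht (finProdFinEquiv.symm l).1).1)
      (C.pull_mem (snd X Y) (hws (finProdFinEquiv.symm l).2))
    exact_mod_cast this
  · rw [map_mul, H.cl_pull, (ht _).2, map_zero, zero_mul]
  · rw [Fintype.linearIndependent_iff] at hti ⊢
    intro c hc
    have h1 : ∑ l, c l • (C.pull (fst X Y) (t (finProdFinEquiv.symm l).1) *
        C.pull (snd X Y) (w (finProdFinEquiv.symm l).2)) =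
        ∑ p : Fin d × Fin A, c (finProdFinEquiv p) • (C.pull (fst X Y) (t p.1) *
          C.pull (snd X Y) (w p.2)) := by
      rw [← Equiv.sum_comp finProdFinEquiv]
      simp
    rw [h1] at hc
    have h2 : ∀ j i, c (finProdFinEquiv (i, j)) = 0 := by
      intro j
      have h3 : con X (w' j) (∑ p : Fin d × Fin A, c (finProdFinEquiv p) •
          (C.pull (fst X Y) (t p.1) * C.pull (snd X Y) (w p.2))) = 0 := by
        rw [hc, con, zero_mul, map_zero]
      rw [con_sum] at h3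
      have h4 : ∑ p : Fin d × Fin A, c (finProdFinEquiv p) •
          con X (w' j) (C.pull (fst X Y) (t p.1) * C.pull (snd X Y) (w p.2)) =
          ∑ i : Fin d, c (finProdFinEquiv (i, j)) • t i := by
        rw [Fintype.sum_prod_type]
        refine Finset.sum_congr rfl fun i _ => ?_
        rw [Finset.sum_eq_single j]
        · rw [con_ext _ _ _ (hw j j), if_pos rfl, one_smul, mul_one]
        · intro j' _ hj'
          rw [con_ext _ _ _ (hw j' j), if_neg hj', zero_smul, mul_zero, smul_zero]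
        · intro h
          exact absurd (Finset.mem_univ j) h
      rw [h4] at h3
      exact fun i => hti _ h3 i
    intro l
    obtain ⟨⟨i, j⟩, rfl⟩ := finProdFinEquiv.surjective l
    exact h2 j i

lemma homIn_iso (f : X ⟶ Y) (g : Y ⟶ X) (h : f ≫ g = 𝟙 X) {r d : ℕ} (hd : HomInGE H r X d) :
    HomInGE H r Y d := by
  obtain ⟨t, ht, hti⟩ := hd
  refine ⟨fun i => C.pull g (t i), fun i => ⟨C.pull_mem g (ht i).1, ?_⟩, ?_⟩
  · rw [H.cl_pull, (ht i).2, map_zero]
  · rw [Fintype.linearIndependent_iff] at hti ⊢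
    intro c hc
    apply hti
    have h1 := congrArg (C.pull f) hc
    rw [map_sum, map_zero] at h1
    simpa only [map_smul, pull_pull f g h] using h1

lemma homIn_one {r : ℕ} (h : ¬ InjectiveIn H r X) : HomInGE H r X 1 := by
  unfold InjectiveIn at h
  push Not at h
  obtain ⟨t, ht, ht0, hne⟩ := h
  exact ⟨fun _ => t, fun _ => ⟨ht, ht0⟩, linearIndependent_unique_iff.2 hne⟩

/-- One more square of a power. -/
lemma homIn_step {m n r s d A : ℕ} (hd : HomInGE H r (pw X m) d)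
    (hA : NumRankInGE C s ((pw X n).prod (pw X n)) A) :
    HomInGE H (r + s) (pw X (m + 2 * (n + 1))) (d * A) := by
  obtain ⟨f1, g1, h1⟩ := pw_iso X m n
  obtain ⟨f2, g2, h2⟩ := pw_iso X (m + n + 1) n
  have h3 : prodMap f1 (𝟙 (pw X n)) ≫ prodMap g1 (𝟙 (pw X n)) = 𝟙 _ := by
    apply prod_ext
    · simp [prodMap, h1]
    · simp [prodMap]
  have h4 : (aJ (pw X m) (pw X n) (pw X n) ≫ prodMap f1 (𝟙 (pw X n)) ≫ f2) ≫
      (g2 ≫ prodMap g1 (𝟙 (pw X n)) ≫ aI (pw X m) (pw X n) (pw X n)) = 𝟙 _ := by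
    calc (aJ (pw X m) (pw X n) (pw X n) ≫ prodMap f1 (𝟙 (pw X n)) ≫ f2) ≫
      (g2 ≫ prodMap g1 (𝟙 (pw X n)) ≫ aI (pw X m) (pw X n) (pw X n)) =
        aJ (pw X m) (pw X n) (pw X n) ≫ prodMap f1 (𝟙 (pw X n)) ≫ (f2 ≫ g2) ≫
          prodMap g1 (𝟙 (pw X n)) ≫ aI (pw X m) (pw X n) (pw X n) := by
          simp only [Category.assoc]
      _ = aJ (pw X m) (pw X n) (pw X n) ≫ (prodMap f1 (𝟙 (pw X n)) ≫
          prodMap g1 (𝟙 (pw X n))) ≫ aI (pw X m) (pw X n) (pw X n) := by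
          rw [h2, Category.id_comp]
          simp only [Category.assoc]
      _ = 𝟙 _ := by rw [h3, Category.id_comp, aJ_aI]
  have h5 := homIn_iso _ _ h4 (homIn_prod hd hA)
  rwa [show m + n + 1 + n + 1 = m + 2 * (n + 1) by ring] at h5

/-- Reduction to the middle codimension. -/
lemma homIn_mid {m r : ℕ} (h : ¬ InjectiveIn H r (pw X m)) {l : ℕ} (hl : m ≤ l) :
    HomInGE H ((l + m + 2) * X.dim / 2) (pw X (l + m + 1)) 1 := by
  have hr : r ≤ (m + 1) * X.dim := by
    by_contra hr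
    apply h
    intro z hz _
    exact hC.gr_top (pw X m) r z hz (by rw [pw_dim]; exact_mod_cast not_le.1 hr)
  obtain ⟨f, g, hfg⟩ := pw_iso X m l
  have h1 : (m + 1) * X.dim ≤ (l + m + 2) * X.dim / 2 := by
    rw [Nat.le_div_iff_mul_le (by norm_num)]
    nlinarith [Nat.mul_le_mul_right X.dim hl]
  have h2 : (l + m + 2) * X.dim / 2 ≤ (l + 1) * X.dim := by
    apply Nat.div_le_of_le_mul
    nlinarith [Nat.mul_le_mul_right X.dim hl]
  have h3 := homIn_prod (homIn_one h) (numRankIn_one (C := C) (pw X l)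
    (s := (l + m + 2) * X.dim / 2 - r) (by rw [pw_dim]; omega))
  rw [show r + ((l + m + 2) * X.dim / 2 - r) = (l + m + 2) * X.dim / 2 by omega, one_mul] at h3
  have h4 := homIn_iso f g hfg h3
  rwa [show m + l + 1 = l + m + 1 by ring] at h4

/-- If the injectivity fails for a power then the spaces of homologically trivial cycles of the
middle codimensions are large. -/
theorem homIn_big [hX : EvenVar H X] {m r : ℕ} (h : ¬ InjectiveIn H r (pw X m)) {l : ℕ}
    (hl : m ≤ l) (n : ℕ) :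
    ∃ A, HomInGE H ((l + m + 2 * n + 4) * X.dim / 2) (pw X (l + m + 2 * n + 3)) A ∧
      Module.finrank K (H.A X) ^ (2 * (n + 1)) ≤
        A * (n + Module.finrank K (H.A X) ^ 2).choose (n + 1) := by
  have h2 := homIn_step (homIn_mid h hl) (numRank (H := H) (X := X) n le_rfl)
  rw [one_mul, show (l + m + 2) * X.dim / 2 + (n + 1) * X.dim =
    (l + m + 2 * n + 4) * X.dim / 2 by
      rw [show (l + m + 2 * n + 4) * X.dim = (l + m + 2) * X.dim + 2 * ((n + 1) * X.dim) by ring]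
      omega, show l + m + 1 + 2 * (n + 1) = l + m + 2 * n + 3 by ring] at h2
  refine ⟨_, h2, ?_⟩
  have h1 := rank_fixM (n + 1) (Fin (Module.finrank K (H.A X)))
  rw [Fintype.card_fin, Nat.multichoose_eq] at h1
  rw [show n + Module.finrank K (H.A X) ^ 2 =
    Module.finrank K (H.A X) ^ 2 + (n + 1) - 1 by omega]
  exact h1

/-- Powers beat binomial coefficients. -/
lemma eventually_small (b : ℕ) {β : ℝ} (hβ : 0 ≤ β) (hb : β < b) (D : ℝ) :
    ∀ᶠ n : ℕ in atTop,
      D * β ^ (2 * (n + 1)) * ((n + b ^ 2).choose (n + 1) : ℝ) < (b : ℝ) ^ (2 * (n + 1)) := by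
  have hb0 : (0 : ℝ) < b := lt_of_le_of_lt hβ hb
  have hb1 : 1 ≤ b := by
    by_contra h
    have : b = 0 := by omega
    rw [this] at hb0
    simp at hb0
  by_cases hβ0 : β = 0
  · refine Eventually.of_forall fun n => ?_
    rw [hβ0, zero_pow (by omega), mul_zero, zero_mul]
    positivity
  set ρ : ℝ := (β / b) ^ 2 with hρ
  have hβp : 0 < β / b := div_pos (lt_of_le_of_ne hβ (Ne.symm hβ0)) hb0
  have hρp : 0 < ρ := by
    rw [hρ]
    positivity
  have hq1 : β / b < 1 := (div_lt_one hb0).2 hb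
  have hρ1 : ρ < 1 := by
    rw [hρ]
    nlinarith
  have ht := tendsto_pow_const_mul_const_pow_of_abs_lt_one (b ^ 2) (r := ρ)
    (by rw [abs_of_nonneg hρp.le]; exact hρ1)
  have ht2 : Tendsto (fun n : ℕ => (((n + b ^ 2 : ℕ) : ℝ)) ^ (b ^ 2) * ρ ^ (n + b ^ 2)) atTop
      (nhds 0) := ht.comp (tendsto_add_atTop_nat (b ^ 2))
  have hD : (0 : ℝ) < |D| + 1 := by positivity
  filter_upwards [ht2.eventually (gt_mem_nhds (show (0 : ℝ) < ρ ^ (b ^ 2) / ρ / (|D| + 1) by
    positivity))] with n hn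
  have h1 : ((n + b ^ 2).choose (n + 1) : ℝ) ≤ ((n + b ^ 2 : ℕ) : ℝ) ^ (b ^ 2) := by
    have h2 : (n + b ^ 2).choose (n + 1) ≤ (n + b ^ 2) ^ (b ^ 2) := by
      have h3 : (n + b ^ 2).choose (n + 1) = (n + b ^ 2).choose (b ^ 2 - 1) := by
        have hb2 : 1 ≤ b ^ 2 := Nat.one_le_pow _ _ hb1
        rw [← Nat.choose_symm_of_eq_add]
        omega
      rw [h3]
      refine (Nat.choose_le_pow _ _).trans ?_
      exact Nat.pow_le_pow_right (by have := Nat.one_le_pow 2 b hb1; omega) (Nat.sub_le _ _)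
    exact_mod_cast h2
  have h4 : (|D| + 1) * (((n + b ^ 2 : ℕ) : ℝ) ^ (b ^ 2) * ρ ^ (n + 1)) < 1 := by
    have h5 : ρ ^ (n + b ^ 2) = ρ ^ (n + 1) * (ρ ^ (b ^ 2) / ρ) := by
      rw [mul_div_assoc', ← pow_add, eq_div_iff hρp.ne', ← pow_succ]
      congr 1
      ring
    rw [h5, ← mul_assoc, lt_div_iff₀ hD] at hn
    have h6 : (0 : ℝ) < ρ ^ (b ^ 2) / ρ := by positivity
    by_contra h7
    push Not at h7
    have h8 := mul_le_mul_of_nonneg_right h7 h6.le
    rw [one_mul] at h8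
    have h9 : (|D| + 1) * (((n + b ^ 2 : ℕ) : ℝ) ^ (b ^ 2) * ρ ^ (n + 1)) * (ρ ^ (b ^ 2) / ρ) =
      ((n + b ^ 2 : ℕ) : ℝ) ^ (b ^ 2) * ρ ^ (n + 1) * (ρ ^ (b ^ 2) / ρ) * (|D| + 1) := by ring
    rw [h9] at h8
    exact absurd hn (not_lt.2 h8)
  have h5 : β ^ (2 * (n + 1)) = ρ ^ (n + 1) * (b : ℝ) ^ (2 * (n + 1)) := by
    rw [hρ, ← pow_mul, ← mul_pow, div_mul_cancel₀ _ hb0.ne']
  have h10 : (0 : ℝ) ≤ β ^ (2 * (n + 1)) := pow_nonneg hβ _
  calc D * β ^ (2 * (n + 1)) * ((n + b ^ 2).choose (n + 1) : ℝ) ≤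
      (|D| + 1) * β ^ (2 * (n + 1)) * ((n + b ^ 2).choose (n + 1) : ℝ) := by
        refine mul_le_mul_of_nonneg_right (mul_le_mul_of_nonneg_right ?_ h10) (Nat.cast_nonneg _)
        linarith [le_abs_self D]
    _ ≤ (|D| + 1) * β ^ (2 * (n + 1)) * ((n + b ^ 2 : ℕ) : ℝ) ^ (b ^ 2) :=
        mul_le_mul_of_nonneg_left h1 (mul_nonneg hD.le h10)
    _ = ((|D| + 1) * (((n + b ^ 2 : ℕ) : ℝ) ^ (b ^ 2) * ρ ^ (n + 1))) *
        (b : ℝ) ^ (2 * (n + 1)) := by
        rw [h5]; ring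
    _ < 1 * (b : ℝ) ^ (2 * (n + 1)) := mul_lt_mul_of_pos_right h4 (pow_pos hb0 _)
    _ = (b : ℝ) ^ (2 * (n + 1)) := one_mul _

lemma homInGE_zero {r : ℕ} (h : InjectiveIn H r X) {d : ℕ} (hd : HomInGE H r X d) : d = 0 := by
  obtain ⟨t, ht, hti⟩ := hd
  by_contra h0
  exact hti.ne_zero ⟨0, Nat.pos_of_ne_zero h0⟩ (h _ (ht _).1 (ht _).2)

/-- The growth criterion. -/
theorem growth_iff [hX : EvenVar H X] :
    (∀ n r, InjectiveIn H r (pw X n)) ↔ SlowGrowth H X := by
  have := finite_coh H X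
  have hnt : Nontrivial (H.A X) := ⟨1, 0, hH.one_ne_zero X⟩
  constructor
  · intro h
    refine ⟨0, 0, le_rfl, ?_, (Eventually.of_forall fun n d hd => ?_).frequently⟩
    · exact_mod_cast Module.finrank_pos
    · rw [homInGE_zero (h n _) hd, Nat.cast_zero, zero_mul]
  · rintro ⟨β, D, hβ, hb, hfr⟩ m r
    by_contra hr
    set b := Module.finrank K (H.A X) with hbdef
    set B : ℝ := max 1 β with hB
    have hB1 : 1 ≤ B := le_max_left _ _
    have hBβ : β ≤ B := le_max_right _ _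
    obtain ⟨N0, hN0⟩ := eventually_atTop.1
      (eventually_small b hβ hb (|D| * B ^ (2 * m + 3)))
    obtain ⟨N, hN, hN2⟩ := (hfr.and_eventually
      (eventually_ge_atTop (2 * m + 3 + 2 * N0))).exists
    set n := (N - (2 * m + 3)) / 2 with hn
    set l := m + (N - (2 * m + 3)) % 2 with hl
    have h0 : 2 * ((N - (2 * m + 3)) / 2) + (N - (2 * m + 3)) % 2 = N - (2 * m + 3) :=
      Nat.div_add_mod _ _
    have h01 : (N - (2 * m + 3)) % 2 < 2 := Nat.mod_lt _ (by norm_num)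
    have hNe : N = l + m + 2 * n + 3 := by omega
    have hnN : N0 ≤ n := by omega
    obtain ⟨A, hA1, hA2⟩ := homIn_big hr (l := l) (by omega) n
    have h1 : (A : ℝ) ≤ D * β ^ (N + 1) := by
      apply hN
      rw [hNe]
      exact hA1
    have h2 : (b : ℝ) ^ (2 * (n + 1)) ≤ (A : ℝ) * ((n + b ^ 2).choose (n + 1) : ℝ) := by
      exact_mod_cast hA2
    have h3 : D * β ^ (N + 1) ≤ |D| * B ^ (2 * m + 3) * β ^ (2 * (n + 1)) := by
      have h5 : β ^ (N + 1) = β ^ (l + m + 2) * β ^ (2 * (n + 1)) := by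
        rw [← pow_add, hNe]
        congr 1
        ring
      have h6 : β ^ (l + m + 2) ≤ B ^ (2 * m + 3) :=
        le_trans (pow_le_pow_left₀ hβ hBβ _) (pow_le_pow_right₀ hB1 (by omega))
      calc D * β ^ (N + 1) ≤ |D| * β ^ (N + 1) :=
            mul_le_mul_of_nonneg_right (le_abs_self D) (pow_nonneg hβ _)
        _ = |D| * (β ^ (l + m + 2) * β ^ (2 * (n + 1))) := by rw [h5]
        _ ≤ |D| * (B ^ (2 * m + 3) * β ^ (2 * (n + 1))) :=
            mul_le_mul_of_nonneg_left (mul_le_mul_of_nonneg_right h6 (pow_nonneg hβ _))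
              (abs_nonneg D)
        _ = _ := by ring
    have h4 := hN0 n hnN
    have h5 : (b : ℝ) ^ (2 * (n + 1)) ≤ |D| * B ^ (2 * m + 3) * β ^ (2 * (n + 1)) *
        ((n + b ^ 2).choose (n + 1) : ℝ) :=
      h2.trans (mul_le_mul_of_nonneg_right (h1.trans h3) (Nat.cast_nonneg _))
    exact absurd h4 (not_lt.2 h5)

end Pool.Agent.K3h85.PG
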