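import Pool.Agent.K3h85.PG.Geo

/-!
# The intersection numbers of the graphs of the permutations of the factors of a power
-/

open CategoryTheory AlgebraicGeometry

universe u v w

namespace Pool.Agent.K3h85.PG

open Pool.Agent.H914 Pool.Agent.H914.VarClass Pool.Agent.H914.VarClass.Obj Pool.Agent.W492.BB
  Pool.Agent.W550.Corr Pool.Agent.TH133 Pool.Agent.TH829.Prime Pool.Agent.TH829.Kim
  Pool.Agent.Y148.BB Pool.Agent.Y110
open Pool.Agent.V1151.DG (pw pw_iso NumRankGE numRank_one estimate exists_pt)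

set_option linter.unusedSectionVars false

variable {k : Type u} [Field k] {𝒱 : VarClass k} {C : TheoryData.{u, v, 0} 𝒱 ℚ}
  [hC : IsChowProj C] {K : Type w} [Field K]

/-- The projections of the power `X ^ (n + 1)`. -/
noncomputable def prj (X : 𝒱.Obj) : (n : ℕ) → Fin (n + 1) → (pw X n ⟶ X)
  | 0 => fun _ => 𝟙 X
  | n + 1 => Fin.snoc (α := fun _ => (pw X (n + 1) ⟶ X)) (fun i => fst (pw X n) X ≫ prj X n i)
      (snd (pw X n) X)

lemma prj_castSucc (X : 𝒱.Obj) (n : ℕ) (i : Fin (n + 1)) :
    prj X (n + 1) i.castSucc = fst (pw X n) X ≫ prj X n i :=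
  Fin.snoc_castSucc (α := fun _ => (pw X (n + 1) ⟶ X)) (snd (pw X n) X)
    (fun i => fst (pw X n) X ≫ prj X n i) i

lemma prj_last (X : 𝒱.Obj) (n : ℕ) : prj X (n + 1) (Fin.last (n + 1)) = snd (pw X n) X :=
  Fin.snoc_last (α := fun _ => (pw X (n + 1) ⟶ X)) (snd (pw X n) X)
    (fun i => fst (pw X n) X ≫ prj X n i)

lemma pw_dim (X : 𝒱.Obj) (n : ℕ) : (pw X n).dim = (n + 1) * X.dim := by
  induction n with
  | zero => rw [pw]; ring
  | succ n ih => rw [pw, dim_prod, ih]; ring

variable {H : WeilTheoryData.{u, v, w} C K} [hH : IsWeilProj H] {X Y Z : 𝒱.Obj}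

include hC hH

/-- The integral of a product of classes pulled back from the factors. -/
lemma intg_prod [hX : EvenVar H X] (n : ℕ) (x : Fin (n + 1) → H.A X) :
    intg H (pw X n) (∏ j, H.pull (prj X n j) (x j)) = ∏ j, intg H X (x j) := by
  induction n with
  | zero =>
    rw [Fin.prod_univ_one, Fin.prod_univ_one]
    change intg H X (H.pull (𝟙 X) (x 0)) = _
    rw [H.pull_id]
  | succ n ih =>
    have h1 : ∀ j : Fin (n + 1), H.pull (prj X (n + 1) j.castSucc) (x j.castSucc) =
        H.pull (fst (pw X n) X) (H.pull (prj X n j) (x j.castSucc)) := by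
      intro j
      rw [prj_castSucc]
      exact H.pull_comp (fst (pw X n) X) (prj X n j) _
    have h2 : ∏ j : Fin (n + 1), H.pull (prj X (n + 1) j.castSucc) (x j.castSucc) =
        H.pull (fst (pw X n) X) (∏ j : Fin (n + 1), H.pull (prj X n j) (x j.castSucc)) := by
      rw [Finset.prod_congr rfl fun j _ => h1 j]
      exact (map_prod (H.pull (fst (pw X n) X)) _ _).symm
    have h3 := intg_ext (H := H) (X := pw X n) (Y := X)
      (∏ j : Fin (n + 1), H.pull (prj X n j) (x j.castSucc)) (x (Fin.last (n + 1)))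
    rw [ih, ← h2] at h3
    rw [Fin.prod_univ_castSucc (n := n + 1), Fin.prod_univ_castSucc (n := n + 1)
      (f := fun j => intg H X (x j)), ← h3, prj_last]
    rfl

variable (C) in
omit hH in
/-- The graph of a permutation of the factors of `X ^ (n + 1)`. -/
noncomputable def permC (X : 𝒱.Obj) (n : ℕ) (σ : Equiv.Perm (Fin (n + 1))) :
    C.A ((pw X n).prod (pw X n)) :=
  ∏ j, ev (dg C X) (fst (pw X n) (pw X n) ≫ prj X n j) (snd (pw X n) (pw X n) ≫ prj X n (σ j))

omit hH in
lemma prod_mem_gr {ι : Type*} (s : Finset ι) {d : ℤ} (a : ι → C.A Y) (h : ∀ i, a i ∈ C.gr Y d) :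
    ∏ i ∈ s, a i ∈ C.gr Y (s.card * d) := by
  classical
  induction s using Finset.induction_on with
  | empty => simpa using C.one_mem Y
  | insert i s hi ih =>
    rw [Finset.prod_insert hi, Finset.card_insert_of_notMem hi]
    have := C.mul_mem (h i) ih
    rwa [show d + (s.card : ℤ) * d = ((s.card + 1 : ℕ) : ℤ) * d by push_cast; ring] at this

omit hH in
lemma permC_mem (n : ℕ) (σ : Equiv.Perm (Fin (n + 1))) :
    permC C X n σ ∈ C.gr ((pw X n).prod (pw X n)) (pw X n).dim := by
  have h := prod_mem_gr (C := C) (Finset.univ : Finset (Fin (n + 1))) (d := X.dim)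
    (fun j => ev (dg C X) (fst (pw X n) (pw X n) ≫ prj X n j)
      (snd (pw X n) (pw X n) ≫ prj X n (σ j))) (fun j => ev_mem (dg_mem C X) _ _)
  rw [Finset.card_univ, Fintype.card_fin] at h
  rw [pw_dim]
  push_cast at h ⊢
  exact h

lemma cl_permC [hX : EvenVar H X] {ι : Type} [Fintype ι] [DecidableEq ι] {e f : ι → H.A X}
    (h : H.cl (dg C X) = ∑ i, H.pull (fst X X) (e i) * H.pull (snd X X) (f i)) (n : ℕ)
    (σ : Equiv.Perm (Fin (n + 1))) :
    H.cl (permC C X n σ) = ∑ I : Fin (n + 1) → ι,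
      H.pull (fst (pw X n) (pw X n)) (∏ j, H.pull (prj X n j) (e (I j))) *
      H.pull (snd (pw X n) (pw X n)) (∏ j, H.pull (prj X n j) (f (I (σ.symm j)))) := by
  have h1 : ∀ j, H.cl (ev (dg C X) (fst (pw X n) (pw X n) ≫ prj X n j)
      (snd (pw X n) (pw X n) ≫ prj X n (σ j))) =
      ∑ i, H.pull (fst (pw X n) (pw X n)) (H.pull (prj X n j) (e i)) *
        H.pull (snd (pw X n) (pw X n)) (H.pull (prj X n (σ j)) (f i)) := by
    intro j
    rw [ev, H.cl_pull, h, map_sum]
    refine Finset.sum_congr rfl fun i _ => ?_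
    rw [map_mul, ← H.pull_comp, ← H.pull_comp, lift_fst, lift_snd, H.pull_comp, H.pull_comp]
  have h2 : H.cl (permC C X n σ) = ∏ j, H.cl (ev (dg C X) (fst (pw X n) (pw X n) ≫ prj X n j)
      (snd (pw X n) (pw X n) ≫ prj X n (σ j))) := map_prod H.cl _ _
  rw [h2, Finset.prod_congr rfl fun j _ => h1 j, Finset.prod_univ_sum, Fintype.piFinset_univ]
  refine Finset.sum_congr rfl fun I _ => ?_
  rw [Finset.prod_mul_distrib, map_prod, map_prod]
  congr 1
  rw [← Equiv.prod_comp σ (fun j => H.pull (snd (pw X n) (pw X n))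
    (H.pull (prj X n j) (f (I (σ.symm j)))))]
  refine Finset.prod_congr rfl fun j _ => ?_
  rw [Equiv.symm_apply_apply]

/-- The integral of the product of the classes of two graphs of permutations. -/
lemma intg_permC [hX : EvenVar H X] (n : ℕ) (σ τ : Equiv.Perm (Fin (n + 1))) :
    intg H ((pw X n).prod (pw X n)) (H.cl (permC C X n σ * permC C X n τ)) =
      (fixN (n + 1) (Fin (Module.finrank K (H.A X))) (τ⁻¹ * σ) : K) := by
  obtain ⟨e, f, h, hef, hex⟩ := exists_dual H X
  set Q := pw X n with hQ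
  have h1 : H.cl (permC C X n σ * permC C X n τ) =
      ∑ I : Fin (n + 1) → Fin (Module.finrank K (H.A X)),
      ∑ J : Fin (n + 1) → Fin (Module.finrank K (H.A X)),
      H.pull (fst Q Q) (∏ j, H.pull (prj X n j) (e (I j) * e (J j))) *
      H.pull (snd Q Q) (∏ j, H.pull (prj X n j) (f (I (σ.symm j)) * f (J (τ.symm j)))) := by
    rw [map_mul, cl_permC h, cl_permC h, Finset.sum_mul_sum]
    refine Finset.sum_congr rfl fun I _ => Finset.sum_congr rfl fun J _ => ?_
    simp_rw [map_mul (H.pull (prj X n _)), Finset.prod_mul_distrib, map_mul]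
    exact mul_mul_mul_comm _ _ _ _
  have h2 : ∀ i k, (∑ j, intg H X (e j * e i) * intg H X (f j * f k)) =
      if i = k then 1 else 0 := by
    intro i k
    rw [← hef i k]
    conv_rhs => rw [hex (e i)]
    rw [Finset.sum_mul, map_sum]
    refine Finset.sum_congr rfl fun j _ => ?_
    rw [smul_mul_assoc, map_smul, smul_eq_mul]
  have h3 : ∀ I J : Fin (n + 1) → Fin (Module.finrank K (H.A X)),
      intg H (Q.prod Q) (H.pull (fst Q Q) (∏ j, H.pull (prj X n j) (e (I j) * e (J j))) *
      H.pull (snd Q Q) (∏ j, H.pull (prj X n j) (f (I (σ.symm j)) * f (J (τ.symm j))))) =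
      ∏ j, intg H X (e (I j) * e (J j)) * intg H X (f (I j) * f (J ((τ⁻¹ * σ) j))) := by
    intro I J
    have h4 := intg_ext (H := H) (X := Q) (Y := Q) (∏ j, H.pull (prj X n j) (e (I j) * e (J j)))
      (∏ j, H.pull (prj X n j) (f (I (σ.symm j)) * f (J (τ.symm j))))
    have h5 := intg_prod (H := H) n (fun j => e (I j) * e (J j))
    have h6 := intg_prod (H := H) n (fun j => f (I (σ.symm j)) * f (J (τ.symm j)))
    rw [← Equiv.prod_comp σ (fun j => intg H X (f (I (σ.symm j)) * f (J (τ.symm j))))] at h6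
    rw [Finset.prod_mul_distrib]
    refine h4.trans ?_
    refine congrArg₂ (· * ·) h5 (h6.trans ?_)
    refine Finset.prod_congr rfl fun j _ => ?_
    rw [Equiv.symm_apply_apply]
    rfl
  have h7 : intg H (Q.prod Q) (H.cl (permC C X n σ * permC C X n τ)) =
      ∑ I : Fin (n + 1) → Fin (Module.finrank K (H.A X)),
      ∑ J : Fin (n + 1) → Fin (Module.finrank K (H.A X)),
      ∏ j, intg H X (e (I j) * e (J j)) * intg H X (f (I j) * f (J ((τ⁻¹ * σ) j))) := by
    rw [h1, map_sum]
    refine Finset.sum_congr rfl fun I _ => ?_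
    rw [map_sum]
    exact Finset.sum_congr rfl fun J _ => h3 I J
  rw [h7, Finset.sum_comm]
  have h4 : ∀ J : Fin (n + 1) → Fin (Module.finrank K (H.A X)),
      ∑ I : Fin (n + 1) → Fin (Module.finrank K (H.A X)),
        ∏ j, intg H X (e (I j) * e (J j)) * intg H X (f (I j) * f (J ((τ⁻¹ * σ) j))) =
      if J ∘ ⇑(τ⁻¹ * σ) = J then 1 else 0 := by
    intro J
    have h5 := Finset.prod_univ_sum (fun _ : Fin (n + 1) =>
      (Finset.univ : Finset (Fin (Module.finrank K (H.A X)))))
      (fun j i => intg H X (e i * e (J j)) * intg H X (f i * f (J ((τ⁻¹ * σ) j))))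
    rw [Fintype.piFinset_univ] at h5
    rw [← h5]
    simp_rw [h2]
    split_ifs with h6
    · refine Finset.prod_eq_one fun j _ => ?_
      exact if_pos (congrFun h6 j).symm
    · obtain ⟨j, hj⟩ := Function.ne_iff.1 h6
      refine Finset.prod_eq_zero (Finset.mem_univ j) ?_
      exact if_neg fun h8 => hj h8.symm
  rw [Finset.sum_congr rfl fun J _ => h4 J, Finset.sum_boole]
  congr 1
  rw [fixN, Fintype.card_subtype]

/-- The intersection numbers of the graphs of permutations. -/
theorem hasDegree_permC [hX : EvenVar H X] (n : ℕ) (σ τ : Equiv.Perm (Fin (n + 1))) :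
    HasDegree C (permC C X n σ * permC C X n τ)
      (fixM (n + 1) (Fin (Module.finrank K (H.A X))) σ τ) := by
  have := charZero H X
  have h1 : permC C X n σ * permC C X n τ ∈
      C.gr ((pw X n).prod (pw X n)) (((pw X n).prod (pw X n)).dim : ℕ) := by
    have h := C.mul_mem (permC_mem (C := C) (X := X) n σ) (permC_mem (C := C) (X := X) n τ)
    rw [dim_prod]
    push_cast
    exact h
  obtain ⟨q, hq⟩ := hC.degree _ _ h1
  have hq' : HasDegree C (permC C X n σ * permC C X n τ) q := hq
  have h2 := intg_cl (H := H) hq'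
  rw [intg_permC] at h2
  have h3 : q = fixM (n + 1) (Fin (Module.finrank K (H.A X))) σ τ := by
    have h4 : ((fixN (n + 1) (Fin (Module.finrank K (H.A X))) (τ⁻¹ * σ) : ℚ) : K) = (q : K) := by
      rw [← h2]
      push_cast
      rfl
    exact (Rat.cast_injective h4).symm
  rw [← h3]
  exact hq'

end Pool.Agent.K3h85.PG
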